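import Pool.Agent.U180.DP.Stm2

/-!
Package SECUP of project DP: the upper bound for the gaps between randomly displaced primes.
-/

set_option autoImplicit false

open MeasureTheory ProbabilityTheory Filter Topology

namespace Pool.Agent.U667.DP

open Pool.Agent.U180.DP

noncomputable def Yy (ε x : ℝ) : ℝ := Real.log x ^ 2 + (1 + ε / 2) * (Real.log x * l3 x)

lemma tend_ll : Tendsto (fun x : ℝ => Real.log (Real.log x)) atTop atTop :=
  Real.tendsto_log_atTop.comp Real.tendsto_log_atTop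

lemma tend_l3 : Tendsto l3 atTop atTop := Real.tendsto_log_atTop.comp tend_ll

lemma log_half (t : ℝ) (ht : 0 < t) : Real.log t ≤ t / 2 := by
  have h1 := Real.log_le_sub_one_of_pos (show 0 < t / 2 by positivity)
  rw [Real.log_div ht.ne' (by norm_num)] at h1
  have := Real.log_two_lt_d9
  linarith

lemma Yy_bounds {ε x : ℝ} (hε : 0 < ε) (hε1 : ε ≤ 1) (hx : 1 < Real.log x)
    (hx2 : 1 < Real.log (Real.log x)) : 0 < Yy ε x ∧ Yy ε x ≤ 2 * Real.log x ^ 2 := by
  have h1 : 0 < l3 x := Real.log_pos hx2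
  have h2 : l3 x ≤ Real.log (Real.log x) / 2 := log_half _ (by linarith)
  have h3 : Real.log (Real.log x) ≤ Real.log x / 2 := log_half _ (by linarith)
  have h4 : l3 x ≤ Real.log x / 4 := by linarith
  unfold Yy
  have h5 : 0 < Real.log x * l3 x := by positivity
  have h6 : Real.log x * l3 x ≤ Real.log x * (Real.log x / 4) :=
    mul_le_mul_of_nonneg_left h4 (by linarith)
  refine ⟨by positivity, ?_⟩
  nlinarith

lemma exp_Yy {ε x : ℝ} (hx0 : 0 < x) (hx : 1 < Real.log x)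
    (hx2 : 1 < Real.log (Real.log x)) :
    Real.exp (-(Yy ε x / Real.log x)) = 1 / (x * (Real.log (Real.log x)) ^ (1 + ε / 2)) := by
  have hl : Real.log x ≠ 0 := by linarith
  have h1 : Yy ε x / Real.log x = Real.log x + l3 x * (1 + ε / 2) := by
    unfold Yy
    field_simp
  rw [h1, neg_add, Real.exp_add, Real.exp_neg, Real.exp_neg, Real.exp_log hx0,
    Real.rpow_def_of_pos (by linarith)]
  unfold l3
  rw [one_div, mul_inv]

theorem ae_start (h1 : S_START) (h3 : S_SER) {Ω : Type} [MeasurableSpace Ω] (P : Measure Ω)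
    (A : ℝ) (U : ℕ → Ω → ℝ) (hU : IsUnif P U) (hA : 1 < A) (ε : ℝ) (hε : 0 < ε) (hε1 : ε ≤ 1) :
    ∀ᵐ ω ∂P, ∀ᶠ n : ℕ in atTop, ω ∉ start A U n (Yy ε n) := by
  have := hU.prob
  obtain ⟨X₀, h1⟩ := h1 A 1 hA one_pos
  have hs : Summable fun n : ℕ => P.real (start A U n (Yy ε n)) := by
    refine Summable.of_norm_bounded_eventually_nat (((h3 (ε / 2) (by linarith)).1).mul_left 2) ?_
    have e1 : ∀ᶠ n : ℕ in atTop, X₀ ≤ (n : ℝ) := tendsto_natCast_atTop_atTop.eventually_ge_atTop X₀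
    have e2 : ∀ᶠ n : ℕ in atTop, 1 < Real.log (n : ℝ) :=
      (Real.tendsto_log_atTop.comp tendsto_natCast_atTop_atTop).eventually_gt_atTop 1
    have e3 : ∀ᶠ n : ℕ in atTop, 1 < Real.log (Real.log (n : ℝ)) :=
      (tend_ll.comp tendsto_natCast_atTop_atTop).eventually_gt_atTop 1
    filter_upwards [e1, e2, e3, eventually_ge_atTop 1] with n a1 a2 a3 a4
    have hn : (0 : ℝ) < n := by exact_mod_cast a4
    obtain ⟨b1, b2⟩ := Yy_bounds hε hε1 a2 a3
    have h := (h1 Ω P U hU n (Yy ε n) a1 b1 b2).2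
    rw [exp_Yy hn a2 a3] at h
    rw [Real.norm_eq_abs, abs_of_nonneg measureReal_nonneg]
    refine h.trans (le_of_eq ?_)
    have c1 : Real.log (n : ℝ) ≠ 0 := by linarith
    have c2 : (Real.log (Real.log (n : ℝ))) ^ (1 + ε / 2) ≠ 0 :=
      (Real.rpow_pos_of_pos (by linarith) _).ne'
    field_simp
    norm_num
  refine ae_eventually_notMem ?_
  have h2 := hs.tsum_ofReal_ne_top
  have h4 : ∀ n : ℕ, ENNReal.ofReal (P.real (start A U n (Yy ε n))) =
      P (start A U n (Yy ε n)) := fun n => ofReal_measureReal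
  simp only [h4] at h2
  exact h2

lemma asym {ε : ℝ} (hε : 0 < ε) (hε1 : ε ≤ 1) : ∃ T : ℝ, 1 ≤ T ∧ ∀ a x : ℝ, T ≤ a → a ≤ x →
    x ≤ a + 1 → 1 + Yy ε x ≤ Real.log a ^ 2 + (1 + ε) * (Real.log a * l3 a) ∧
      0 ≤ Real.log a * l3 a := by
  have e1 : ∀ᶠ a : ℝ in atTop, 24 / ε ≤ Real.log a := Real.tendsto_log_atTop.eventually_ge_atTop _
  have e2 : ∀ᶠ a : ℝ in atTop, 2 ≤ Real.log a := Real.tendsto_log_atTop.eventually_ge_atTop _
  have e3 : ∀ᶠ a : ℝ in atTop, 24 / ε ≤ l3 a := tend_l3.eventually_ge_atTop _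
  have e4 : ∀ᶠ a : ℝ in atTop, 1 ≤ Real.log (Real.log a) := tend_ll.eventually_ge_atTop _
  obtain ⟨T, hT⟩ := eventually_atTop.1 (e1.and (e2.and (e3.and e4)))
  refine ⟨max T 1, le_max_right _ _, fun a x ha hax hxa => ?_⟩
  obtain ⟨a1, a2, a3, a4⟩ := hT a ((le_max_left _ _).trans ha)
  have ha1 : 1 ≤ a := (le_max_right _ _).trans ha
  have ha0 : 0 < a := by linarith
  obtain ⟨s, hs⟩ : ∃ s, s = Real.log a := ⟨_, rfl⟩
  obtain ⟨l, hl⟩ : ∃ l, l = l3 a := ⟨_, rfl⟩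
  rw [← hs] at a1 a2
  rw [← hl] at a3
  have hl0 : 0 < l := lt_of_lt_of_le (by positivity) a3
  -- log x
  have b1 : Real.log x ≤ s + 1 / a := by
    have h1 : Real.log x ≤ Real.log (a * (1 + 1 / a)) := by
      refine Real.log_le_log (by linarith) ?_
      have : a * (1 + 1 / a) = a + 1 := by field_simp
      linarith
    rw [Real.log_mul ha0.ne' (by positivity)] at h1
    have h2 := Real.log_le_sub_one_of_pos (show 0 < 1 + 1 / a by positivity)
    linarith
  have b2 : s ≤ Real.log x := by rw [hs]; exact Real.log_le_log ha0 hax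
  have b3 : 1 / a ≤ 1 := by rw [div_le_one ha0]; exact ha1
  have b4 : s * (1 / a) ≤ 1 / 2 := by
    have := log_half a ha0
    rw [← hs] at this
    rw [mul_one_div, div_le_iff₀ ha0]
    linarith
  have hp : 0 < 1 / a := by positivity
  have b5 : Real.log x ^ 2 ≤ s ^ 2 + 2 := by
    have h1 : Real.log x ^ 2 ≤ (s + 1 / a) ^ 2 := pow_le_pow_left₀ (by linarith) b1 2
    nlinarith
  have b6 : Real.log x ≤ s + 1 := by linarith
  -- l3 x
  have b7 : Real.log (Real.log x) ≤ Real.log (Real.log a) * 2 := by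
    have h1 : Real.log (Real.log x) ≤ Real.log (2 * Real.log a) :=
      Real.log_le_log (by linarith) (by rw [← hs]; linarith)
    rw [Real.log_mul (by norm_num) (by rw [← hs]; linarith)] at h1
    have := Real.log_two_lt_d9
    linarith
  have b8 : 1 ≤ Real.log (Real.log x) := a4.trans (Real.log_le_log (by rw [← hs]; linarith)
    (by rw [← hs]; exact b2))
  have b9 : l3 x ≤ l + 1 := by
    have h1 : l3 x ≤ Real.log (Real.log (Real.log a) * 2) := Real.log_le_log (by linarith) b7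
    rw [Real.log_mul (by linarith) (by norm_num)] at h1
    have := Real.log_two_lt_d9
    rw [hl]
    unfold l3 at h1 ⊢
    linarith
  have b10 : 0 ≤ l3 x := Real.log_nonneg b8
  have b11 : Real.log x * l3 x ≤ (s + 1) * (l + 1) := mul_le_mul b6 b9 b10 (by linarith)
  have c1 : 24 ≤ s * ε := by rwa [div_le_iff₀ hε] at a1
  have c2 : 24 ≤ l * ε := by rwa [div_le_iff₀ hε] at a3
  have c3 : 24 * s ≤ ε * (s * l) := by nlinarith
  have c4 : 24 * l ≤ ε * (s * l) := by nlinarith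
  rw [← hs, ← hl]
  constructor
  · unfold Yy
    have h1 : (1 + ε / 2) * (Real.log x * l3 x) ≤ (1 + ε / 2) * ((s + 1) * (l + 1)) :=
      mul_le_mul_of_nonneg_left b11 (by linarith)
    have h2 : ε / 2 * (s + l + 1) ≤ 1 / 2 * (s + l + 1) :=
      mul_le_mul_of_nonneg_right (by linarith) (by linarith)
    have h3 : (1 + ε / 2) * ((s + 1) * (l + 1)) =
        (1 + ε / 2) * (s * l) + (s + l + 1) + ε / 2 * (s + l + 1) := by ring
    have h4 : (1 + ε) * (s * l) = (1 + ε / 2) * (s * l) + ε * (s * l) / 2 := by ring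
    linarith
  · nlinarith

lemma det {Ω : Type} (A : ℝ) (U : ℕ → Ω → ℝ) (ω : Ω) (ε : ℝ) (hε : 0 < ε) (hε1 : ε ≤ 1)
    (h : ∀ᶠ n : ℕ in atTop, ω ∉ start A U n (Yy ε n)) :
    ∃ T : ℝ, ∀ a b : ℝ, IsGap A U ω a b → T ≤ a →
      b - a ≤ Real.log a ^ 2 + (1 + ε) * (Real.log a * l3 a) ∧ 0 ≤ Real.log a * l3 a := by
  obtain ⟨n₀, hn₀⟩ := eventually_atTop.1 h
  obtain ⟨T, hT1, hT⟩ := asym hε hε1
  refine ⟨max T n₀, fun a b hab ha => ?_⟩
  obtain ⟨⟨p, hp, hpa⟩, -, hlt, hall⟩ := hab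
  have ha1 : T ≤ a := (le_max_left _ _).trans ha
  have ha2 : (n₀ : ℝ) ≤ a := (le_max_right _ _).trans ha
  have ha0 : 0 ≤ a := by linarith
  obtain ⟨n, hn⟩ : ∃ n : ℕ, n = ⌈a⌉₊ := ⟨_, rfl⟩
  have h1 : a ≤ n := by rw [hn]; exact Nat.le_ceil a
  have h2 : (n : ℝ) < a + 1 := by rw [hn]; exact Nat.ceil_lt_add_one ha0
  have h3 : n₀ ≤ n := by
    have : (n₀ : ℝ) ≤ n := ha2.trans h1
    exact_mod_cast this
  obtain ⟨c1, c2⟩ := hT a n ha1 h1 h2.le
  refine ⟨?_, c2⟩
  by_contra hcon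
  refine hn₀ n h3 ⟨?_, ?_⟩
  · intro q hq hqq
    rcases hall q hq with h4 | h4
    · linarith [hqq.1]
    · linarith [hqq.2]
  · intro hv
    refine hv p hp ⟨?_, ?_⟩
    · rw [hpa]; linarith
    · rw [hpa]; linarith

theorem t_SECUP (h1 : S_START) (_h2 : S_LAW) (h3 : S_SER) : S_SECUP := by
  intro Ω _ P A U hU hA
  have hk : ∀ k : ℕ, ∀ᵐ ω ∂P, ∀ᶠ n : ℕ in atTop, ω ∉ start A U n (Yy (1 / ((k : ℝ) + 1)) n) := by
    intro k
    refine ae_start h1 h3 P A U hU hA _ (by positivity) ?_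
    rw [div_le_one (by positivity)]
    have : (0 : ℝ) ≤ k := Nat.cast_nonneg _
    linarith
  filter_upwards [ae_all_iff.2 hk] with ω hω ε hε
  obtain ⟨k, hk⟩ := exists_nat_one_div_lt hε
  have hk1 : 1 / ((k : ℝ) + 1) ≤ 1 := by
    rw [div_le_one (by positivity)]
    have : (0 : ℝ) ≤ k := Nat.cast_nonneg _
    linarith
  obtain ⟨T, hT⟩ := det A U ω _ (by positivity) hk1 (hω k)
  refine ⟨T, fun a b hab ha => ?_⟩
  obtain ⟨c1, c2⟩ := hT a b hab ha
  have : (1 + 1 / ((k : ℝ) + 1)) * (Real.log a * l3 a) ≤ (1 + ε) * (Real.log a * l3 a) :=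
    mul_le_mul_of_nonneg_right (by linarith) c2
  linarith

end Pool.Agent.U667.DP
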